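import Pool.Agent.Lib.MP_f51cdd_lc.H26Defs

/-!
The algebras: symmetric atoms `e`, `a i`, `t j`; monochromatic `a`-triangles and `t`-triangles
with three different atoms are forbidden.
-/

namespace Pool.Agent.Lib.MP_f51cdd_lc

inductive At (P Q : Type) : Type
  | e : At P Q
  | a : P → At P Q
  | t : Q → At P Q

open At

variable {P Q : Type}

def cyc : At P Q → At P Q → At P Q → Prop
  | e, y, z => y = z
  | x, e, z => x = z
  | x, y, e => x = y
  | a i, a j, a k => ¬(i = j ∧ j = k)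
  | t i, t j, t k => i = j ∨ j = k ∨ i = k
  | _, _, _ => True

theorem cyc_comm {x y z : At P Q} (h : cyc x y z) : cyc y x z := by
  cases x <;> cases y <;> cases z <;> grind [cyc]

theorem cyc_swap {x y z : At P Q} (h : cyc x y z) : cyc x z y := by
  cases x <;> cases y <;> cases z <;> grind [cyc]

@[simp] theorem cyc_e1 {y z : At P Q} : cyc e y z ↔ y = z := by simp [cyc]
@[simp] theorem cyc_e2 {x z : At P Q} : cyc x e z ↔ x = z := by cases x <;> simp [cyc]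
@[simp] theorem cyc_e3 {x y : At P Q} : cyc x y e ↔ x = y := by
  cases x <;> cases y <;> simp [cyc, eq_comm]

theorem cyc_a {x y : At P Q} {i : P} (hx : x ≠ e) (hy : y ≠ e) (h : ¬(x = a i ∧ y = a i)) :
    cyc x y (a i) := by
  cases x <;> cases y <;> grind [cyc]

theorem cyc_self {x y : At P Q} (hx : x ≠ e) (hy : y ≠ e) (h : ∀ i, ¬(x = a i ∧ y = a i)) :
    cyc x y y := by
  cases x <;> cases y <;> grind [cyc]

theorem not_cyc_a (i : P) : ¬cyc (a i : At P Q) (a i) (a i) := by simp [cyc]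

def cmp (X Y : Set (At P Q)) : Set (At P Q) := {z | ∃ x ∈ X, ∃ y ∈ Y, cyc x y z}

theorem cmp_comm (X Y : Set (At P Q)) : cmp X Y = cmp Y X := by
  ext z
  exact ⟨fun ⟨x, hx, y, hy, h⟩ => ⟨y, hy, x, hx, cyc_comm h⟩,
    fun ⟨x, hx, y, hy, h⟩ => ⟨y, hy, x, hx, cyc_comm h⟩⟩

theorem cmp_mono {X Y X' Y' : Set (At P Q)} (h1 : X ⊆ X') (h2 : Y ⊆ Y') : cmp X Y ⊆ cmp X' Y' :=
  fun _ ⟨x, hx, y, hy, h⟩ => ⟨x, h1 hx, y, h2 hy, h⟩

/-- at least four colours -/
class Big (P : Type) : Prop where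
  out : ∀ i j k : P, ∃ l, l ≠ i ∧ l ≠ j ∧ l ≠ k
  ne : Nonempty P

theorem avoid [Big P] (x y z : At P Q) : ∃ l : P, a l ≠ x ∧ a l ≠ y ∧ a l ≠ z := by
  obtain ⟨o⟩ := Big.ne (P := P)
  have : ∀ x : At P Q, ∃ i : P, ∀ l, l ≠ i → a l ≠ x := fun x => by
    cases x with
    | a i => exact ⟨i, fun l h => by simpa⟩
    | _ => exact ⟨o, by simp⟩
  choose f hf using this
  obtain ⟨l, h1, h2, h3⟩ := Big.out (f x) (f y) (f z)
  exact ⟨l, hf _ _ h1, hf _ _ h2, hf _ _ h3⟩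

theorem assoc_le [Big P] (X Y Z : Set (At P Q)) : cmp (cmp X Y) Z ⊆ cmp X (cmp Y Z) := by
  rintro q ⟨p, ⟨x, hx, y, hy, h1⟩, z, hz, h2⟩
  suffices ∃ r, cyc y z r ∧ cyc x r q from this.elim fun r h => ⟨x, hx, r, ⟨y, hy, z, hz, h.1⟩, h.2⟩
  by_cases h3 : x = e
  · exact ⟨q, by simp_all, by simp [h3]⟩
  by_cases h4 : y = e
  · exact ⟨z, by simp [h4], by simp_all⟩
  by_cases h5 : z = e
  · exact ⟨y, by simp [h5], by simp_all⟩
  by_cases h6 : q = e
  · exact ⟨x, cyc_swap (cyc_comm (by simp_all)), by simp [h6]⟩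
  obtain ⟨l, a1, a2, -⟩ := avoid x y x
  exact ⟨a l, cyc_a h4 h5 fun h => a2 h.1.symm, cyc_swap (cyc_a h3 h6 fun h => a1 h.1.symm)⟩

instance [Big P] : RelAlg (Set (At P Q)) where
  comp := cmp
  conv := id
  ident := {e}
  comp_assoc X Y Z := (assoc_le X Y Z).antisymm (by
    rw [cmp_comm, cmp_comm Y, cmp_comm (cmp X Y), cmp_comm X]; exact assoc_le _ _ _)
  sup_comp X Y Z := by ext z; simp [cmp, or_and_right, exists_or]
  comp_ident X := by ext z; simp [cmp]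
  conv_conv _ := rfl
  conv_sup _ _ := rfl
  conv_comp := cmp_comm
  tarski X Y := sup_eq_right.2 fun z ⟨x, hx, y, hy, h⟩ hz => hy ⟨x, hx, z, hz, cyc_swap h⟩

end Pool.Agent.Lib.MP_f51cdd_lc
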