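import Mathlib

/-!
Relation algebras, representations, weak representations, the first-order language of relation
algebras and quantifier depth.
-/

namespace Pool.Agent.Lib.MP_f51cdd_lc

open FirstOrder

/-- Tarski's axioms for a relation algebra on the Boolean algebra `A`. -/
class RelAlg (A : Type) [BooleanAlgebra A] where
  comp : A → A → A
  conv : A → A
  ident : A
  comp_assoc : ∀ a b c, comp (comp a b) c = comp a (comp b c)
  sup_comp : ∀ a b c, comp (a ⊔ b) c = comp a c ⊔ comp b c
  comp_ident : ∀ a, comp a ident = a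
  conv_conv : ∀ a, conv (conv a) = a
  conv_sup : ∀ a b, conv (a ⊔ b) = conv a ⊔ conv b
  conv_comp : ∀ a b, conv (comp a b) = comp (conv b) (conv a)
  tarski : ∀ a b, comp (conv a) (comp a b)ᶜ ⊔ bᶜ = bᶜ

open RelAlg

variable (A : Type) [BooleanAlgebra A] [RelAlg A]

/-- `A` is weakly representable: an injective map to binary relations on a set preserves `0`,
meet, composition, converse and identity. -/
def IsWRRA : Prop :=
  ∃ (U : Type) (h : A → SetRel U U), Function.Injective h ∧ h ⊥ = ∅ ∧
    (∀ a b, h (a ⊓ b) = h a ∩ h b) ∧ (∀ a b, h (comp a b) = (h a).comp (h b)) ∧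
    (∀ a, h (conv a) = (h a).inv) ∧ h ident = SetRel.id

/-- `A` is representable: it embeds into the algebra of all subrelations of an equivalence
relation `E`, with complement relative to `E`. -/
def IsRRA : Prop :=
  ∃ (U : Type) (E : SetRel U U) (h : A → SetRel U U), Equivalence (fun u v => (u, v) ∈ E) ∧
    Function.Injective h ∧ h ⊥ = ∅ ∧ h ⊤ = E ∧ (∀ a b, h (a ⊔ b) = h a ∪ h b) ∧
    (∀ a, h aᶜ = E \ h a) ∧ (∀ a b, h (comp a b) = (h a).comp (h b)) ∧
    (∀ a, h (conv a) = (h a).inv) ∧ h ident = SetRel.id

/-- The function symbols of relation algebras, by arity. -/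
inductive Fn : ℕ → Type
  | zero : Fn 0
  | one : Fn 0
  | ident : Fn 0
  | neg : Fn 1
  | conv : Fn 1
  | add : Fn 2
  | comp : Fn 2

/-- The first-order language of relation algebras. -/
def L : Language := ⟨Fn, fun _ => Empty⟩

instance : L.Structure A where
  funMap
    | .zero, _ => ⊥
    | .one, _ => ⊤
    | .ident, _ => ident
    | .neg, x => (x 0)ᶜ
    | .conv, x => conv (x 0)
    | .add, x => x 0 ⊔ x 1
    | .comp, x => comp (x 0) (x 1)
  RelMap r := r.elim

/-- Quantifier depth: the maximal number of nested quantifiers. -/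
def depth {α : Type} : ∀ {n : ℕ}, L.BoundedFormula α n → ℕ
  | _, .falsum => 0
  | _, .equal _ _ => 0
  | _, .rel _ _ => 0
  | _, .imp φ ψ => max (depth φ) (depth ψ)
  | _, .all φ => depth φ + 1

end Pool.Agent.Lib.MP_f51cdd_lc
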