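import Pool.Agent.Lib.MP_f51cdd_lc.H26Alg

/-! Algebras with many colours agree on sentences of small quantifier depth. -/

namespace Pool.Agent.Lib.MP_f51cdd_lc

open At Set FirstOrder Language

variable {P P' Q K : Type}

def mp (τ : P → K) : At P Q → At K Q
  | e => e
  | a i => a (τ i)
  | t j => t j

def Thr (m : ℕ) (τ : P → K) (τ' : P' → K) : Prop :=
  ∀ k, min (τ ⁻¹' {k}).encard m = min (τ' ⁻¹' {k}).encard m

def Cor (τ : P → K) (τ' : P' → K) (X : Set (At P Q)) (X' : Set (At P' Q)) : Prop :=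
  ∀ z z', mp τ z = mp τ' z' → (z ∈ X ↔ z' ∈ X')

variable {τ : P → K} {τ' : P' → K} {m : ℕ}

theorem Thr.symm (h : Thr m τ τ') : Thr m τ' τ := fun k => (h k).symm

theorem Cor.symm {X : Set (At P Q)} {X' : Set (At P' Q)} (h : Cor τ τ' X X') : Cor τ' τ X' X :=
  fun z z' e => (h z' z e.symm).symm

theorem Thr.mono (h : Thr m τ τ') {n : ℕ} (hn : n ≤ m) : Thr n τ τ' := fun k => by
  rw [← min_eq_right (Nat.cast_le.2 hn : (n : ℕ∞) ≤ m), ← min_assoc, ← min_assoc, h k]

theorem Thr.one (h : Thr 2 τ τ') (p : P) : ∃ p', τ p = τ' p' := by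
  by_contra! n
  have := h (τ p)
  rw [show τ' ⁻¹' {τ p} = ∅ from eq_empty_of_forall_notMem fun p' e => n p' e.symm] at this
  exact eq_empty_iff_forall_notMem.1 (show τ ⁻¹' {τ p} = ∅ by simpa using this) p rfl

theorem Thr.two (h : Thr 2 τ τ') {p q : P} {q' : P'} (e : τ q = τ' q') (n : p ≠ q) :
    ∃ p', τ p = τ' p' ∧ p' ≠ q' := by
  by_cases h1 : τ p = τ q
  · have h2 : 1 < (τ ⁻¹' {τ p}).encard := one_lt_encard_iff.2 ⟨p, q, rfl, h1.symm, n⟩
    have h3 := h (τ p)
    rw [min_eq_right (b := ((2 : ℕ) : ℕ∞)) (Order.add_one_le_of_lt h2), eq_comm,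
      min_eq_right_iff] at h3
    obtain ⟨p', h4, h5⟩ := exists_ne_of_one_lt_encard (lt_of_lt_of_le (by decide) h3) q'
    exact ⟨p', h4.symm, h5⟩
  · exact (h.one p).imp fun p' h2 => ⟨h2, fun h3 => h1 (by rw [h2, h3, e])⟩

theorem Thr.tot (h : Thr 2 τ τ') (z : At P Q) : ∃ z', mp τ z = mp τ' z' := by
  rcases z with _ | i | j
  exacts [⟨e, rfl⟩, (h.one i).elim fun p h => ⟨a p, congrArg a h⟩, ⟨t j, rfl⟩]

theorem Thr.bisim (h : Thr 2 τ τ') {x y z : At P Q} {z' : At P' Q} (hz : mp τ z = mp τ' z')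
    (hc : cyc x y z) : ∃ x' y', mp τ x = mp τ' x' ∧ mp τ y = mp τ' y' ∧ cyc x' y' z' := by
  obtain ⟨x', hx⟩ := h.tot x
  obtain ⟨y', hy⟩ := h.tot y
  by_cases h1 : x = e
  · exact ⟨e, z', h1 ▸ rfl, by simp_all, by simp⟩
  by_cases h2 : y = e
  · exact ⟨z', e, by simp_all, h2 ▸ rfl, by simp⟩
  by_cases h3 : z = e
  · exact ⟨x', x', hx, by simp_all, by cases z' <;> simp_all [mp]⟩
  by_cases h4 : cyc x' y' z'
  · exact ⟨x', y', hx, hy, h4⟩
  rcases x with _ | i | i <;> rcases y with _ | j | j <;> rcases z with _ | k | k <;>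
    rcases x' with _ | i' | i' <;> rcases y' with _ | j' | j' <;> rcases z' with _ | k' | k' <;>
    simp only [mp, cyc, reduceCtorEq, not_true, a.injEq, t.injEq] at h1 h2 h3 h4 hx hy hz hc
  · by_cases h5 : i = k
    · obtain ⟨p, p1, p2⟩ := h.two hz (show j ≠ k by grind)
      exact ⟨a i', a p, congrArg a hx, congrArg a p1, fun h => p2 h.2⟩
    · obtain ⟨p, p1, p2⟩ := h.two hz h5
      exact ⟨a p, a j', congrArg a p1, congrArg a hy, fun h => p2 (h.1.trans h.2)⟩
  · grind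

theorem Thr.cmp (h : Thr 2 τ τ') {X Y : Set (At P Q)} {X' Y' : Set (At P' Q)} (hX : Cor τ τ' X X')
    (hY : Cor τ τ' Y Y') {z z'} (hz : mp τ z = mp τ' z') : z ∈ cmp X Y → z' ∈ cmp X' Y' :=
  fun ⟨x, h1, y, h2, hc⟩ => let ⟨x', y', h3, h4, h5⟩ := h.bisim hz hc
    ⟨x', (hX _ _ h3).1 h1, y', (hY _ _ h4).1 h2, h5⟩

theorem Thr.term [Big P] [Big P'] (h : Thr 2 τ τ') {α : Type} {v : α → Set (At P Q)}
    {v' : α → Set (At P' Q)} (hv : ∀ i, Cor τ τ' (v i) (v' i)) (s : L.Term α) :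
    Cor τ τ' (s.realize v) (s.realize v') := by
  induction s with
  | var i => exact hv i
  | func f ts ih =>
    intro z z' hz
    cases f
    · rfl
    · rfl
    · change z = e ↔ z' = e
      cases z <;> cases z' <;> simp_all [mp]
    · exact (ih 0 z z' hz).not
    · exact ih 0 z z' hz
    · exact (ih 0 z z' hz).or (ih 1 z z' hz)
    · exact ⟨h.cmp (ih 0) (ih 1) hz, h.symm.cmp (ih 0).symm (ih 1).symm hz.symm⟩

theorem Thr.eq (h : Thr 2 τ τ') {X Y : Set (At P Q)} {X' Y' : Set (At P' Q)} (hX : Cor τ τ' X X')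
    (hY : Cor τ τ' Y Y') (e : X = Y) : X' = Y' := by
  ext z'
  obtain ⟨z, hz⟩ := h.symm.tot z'
  rw [← hX z z' hz.symm, ← hY z z' hz.symm, e]

theorem split {F x : Set P} {F' : Set P'} (h : min F.encard (2 * m : ℕ) = min F'.encard (2 * m : ℕ))
    (hx : x ⊆ F) : ∃ y ⊆ F', min x.encard m = min y.encard m ∧
      min (F \ x).encard m = min (F' \ y).encard m := by
  wlog le : x.encard ≤ (F \ x).encard generalizing x
  · obtain ⟨y, h1, h2, h3⟩ := this (x := F \ x) diff_subset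
      (by rw [diff_diff_cancel_left hx]; exact le_of_not_ge le)
    rw [diff_diff_cancel_left hx] at h3
    exact ⟨F' \ y, diff_subset, h3, by rwa [diff_diff_cancel_left h1]⟩
  rw [← encard_diff_add_encard_of_subset hx] at h
  generalize x.encard = s, (F \ x).encard = b at *
  obtain ⟨y, h1, h2⟩ := exists_subset_encard_eq (s := F') (k := min s m) (by
    generalize F'.encard = c at *
    simp only [min_def] at *
    split_ifs at * <;> enat_to_nat <;> omega)
  refine ⟨y, h1, by simp [h2], ?_⟩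
  rw [← encard_diff_add_encard_of_subset h1, h2] at h
  generalize (F' \ y).encard = c at *
  simp only [min_def] at *
  split_ifs at * <;> enat_to_nat <;> omega

theorem Thr.step (h : Thr (2 * m) τ τ') (X : Set (At P Q)) :
    ∃ (X' : Set (At P' Q)) (σ : P → K × Prop) (σ' : P' → K × Prop), Thr m σ σ' ∧ Cor σ σ' X X' ∧
      ∀ (Y : Set (At P Q)) Y', Cor τ τ' Y Y' → Cor σ σ' Y Y' := by
  choose y y1 y2 y3 using fun k => split (h k) (x := {p | τ p = k ∧ a p ∈ X}) fun _ h => h.1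
  refine ⟨{z | match z with | e => e ∈ X | a p => p ∈ y (τ' p) | t j => t j ∈ X},
    fun p => (τ p, a p ∈ X), fun p => (τ' p, p ∈ y (τ' p)), fun ⟨k, b⟩ => ?_, ?_, ?_⟩
  · by_cases hb : b
    · refine Eq.trans ?_ ((y2 k).trans ?_) <;> congr 2 <;> ext p
      · simp [hb]
      · simpa [hb] using ⟨fun h => ⟨y1 k h, (y1 k h : τ' p = k) ▸ h⟩, fun h => h.1 ▸ h.2⟩
    · refine Eq.trans ?_ ((y3 k).trans ?_) <;> congr 2 <;> ext p
      · simp [hb]; tauto
      · simp [hb]; rintro rfl; rfl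
  · rintro (_ | _ | _) (_ | _ | _) <;> simp +contextual [mp]
  · intro Y Y' H z z' hz
    refine H z z' ?_
    rcases z with _ | _ | _ <;> rcases z' with _ | _ | _ <;> simp_all [mp]

theorem ef [Big P] [Big P'] (u : Empty → Set (At P Q)) (u' : Empty → Set (At P' Q)) {n : ℕ}
    (φ : L.BoundedFormula Empty n) : ∀ {K : Type} {τ : P → K}
    {τ' : P' → K}, Thr (2 * 2 ^ depth φ) τ τ' → ∀ (v : Fin n → Set (At P Q))
    (v' : Fin n → Set (At P' Q)), (∀ i, Cor τ τ' (v i) (v' i)) →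
    (φ.Realize u v ↔ φ.Realize u' v') := by
  induction φ with
  | falsum => exact fun _ _ _ _ => .rfl
  | equal s r =>
    intro K τ τ' h v v' hv
    have := fun s : L.Term (Empty ⊕ Fin _) => Thr.term (Q := Q) h (v := Sum.elim u v)
      (v' := Sum.elim u' v') (by rintro (i | i); exacts [i.elim, hv i]) s
    exact ⟨Thr.eq h (this s) (this r), Thr.eq h.symm (this s).symm (this r).symm⟩
  | rel r => exact r.elim
  | imp φ ψ ih1 ih2 =>
    exact fun h v v' hv => (ih1 (h.mono (by rw [depth]; gcongr <;> simp)) v v' hv).imp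
      (ih2 (h.mono (by rw [depth]; gcongr <;> simp)) v v' hv)
  | all φ ih =>
    intro K τ τ' h v v' hv
    rw [depth, pow_succ'] at h
    refine ⟨fun H X' => ?_, fun H X => ?_⟩
    · obtain ⟨X, σ', σ, h1, h2, h3⟩ := h.symm.step X'
      exact (ih h1.symm _ _ fun i => i.lastCases (by simpa using h2.symm)
        fun i => by simpa using (h3 _ _ (hv i).symm).symm).1 (H X)
    · obtain ⟨X', σ, σ', h1, h2, h3⟩ := h.step X
      exact (ih h1 _ _ fun i => i.lastCases (by simpa using h2)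
        fun i => by simpa using h3 _ _ (hv i)).2 (H X')

end Pool.Agent.Lib.MP_f51cdd_lc
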