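import Pool.Agent.Lib.MP_f51cdd_lc.H26Alg

/-! Networks labelled by sets of atoms and their one-point extensions. -/

namespace Pool.Agent.Lib.MP_f51cdd_lc

open At Set

variable {P Q U : Type}

structure Net (ℓ : U → U → Set (At P Q)) : Prop where
  sym : ∀ x y, ℓ x y = ℓ y x
  refl : ∀ x, ℓ x x = {e}
  div : ∀ x y, x ≠ y → ∃ d ∈ ℓ x y, d ≠ e
  tri : ∀ x y z, ℓ x z ⊆ cmp (ℓ x y) (ℓ y z)

/-- a set of nodes that can be merged to one point -/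
def Good (ℓ : U → U → Set (At P Q)) (M : Set U) : Prop :=
  (∀ x ∈ M, ∀ y ∈ M, e ∈ ℓ x y) ∧ ∀ p ∉ M, ∃ c, c ≠ e ∧ ∀ x ∈ M, c ∈ ℓ p x

def Inv (ℓ : U → U → Set (At P Q)) : Prop :=
  Net ℓ ∧ ∀ x y, e ∈ ℓ x y → ∃ M, Good ℓ M ∧ x ∈ M ∧ y ∈ M

theorem mem_l {X Y : Set (At P Q)} {c : At P Q} (h : e ∈ X) (hc : c ∈ Y) : c ∈ cmp X Y :=
  ⟨e, h, c, hc, by simp⟩

theorem mem_r {X Y : Set (At P Q)} {c : At P Q} (hc : c ∈ X) (h : e ∈ Y) : c ∈ cmp X Y :=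
  ⟨c, hc, e, h, by simp⟩

theorem mem_e {X Y : Set (At P Q)} : e ∈ cmp X Y ↔ ∃ c ∈ X, c ∈ Y := by simp [cmp]

theorem cmp_e (Y : Set (At P Q)) : cmp {e} Y = Y := by ext; simp [cmp]

theorem mem_ai {X : Set (At P Q)} {i : P} (h : ∃ d ∈ X, d ≠ a i) : a i ∈ cmp X {a i} := by
  obtain ⟨d, hd, h⟩ := h
  by_cases h0 : d = e
  · exact mem_l (h0 ▸ hd) rfl
  · exact ⟨d, hd, _, rfl, cyc_a h0 (by simp) fun h' => h h'.1⟩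

theorem mkInv {ℓ : U → U → Set (At P Q)} (sym : ∀ x y, ℓ x y = ℓ y x) (refl : ∀ x, ℓ x x = {e})
    (div : ∀ x y, x ≠ y → ∃ d ∈ ℓ x y, d ≠ e)
    (tri : ∀ x y z, x ≠ y → y ≠ z → x ≠ z → ∀ c ∈ ℓ x z, c ≠ e → c ∈ cmp (ℓ x y) (ℓ y z))
    (good : ∀ x y, e ∈ ℓ x y → ∃ M, Good ℓ M ∧ x ∈ M ∧ y ∈ M) : Inv ℓ := by
  refine ⟨⟨sym, refl, div, fun x y z c hc => ?_⟩, good⟩
  by_cases h0 : c = e
  · subst h0
    obtain ⟨M, hM, hx, hz⟩ := good x z hc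
    by_cases hy : y ∈ M
    · exact mem_l (hM.1 x hx y hy) (hM.1 y hy z hz)
    · obtain ⟨c, -, h⟩ := hM.2 y hy
      exact mem_e.2 ⟨c, sym y x ▸ h x hx, h z hz⟩
  by_cases h1 : x = y
  · exact mem_l (by simp [h1, refl]) (h1 ▸ hc)
  by_cases h2 : y = z
  · exact mem_r (h2 ▸ hc) (by simp [h2, refl])
  exact tri x y z h1 h2 (fun h => h0 (by simpa [h, refl] using hc)) c hc h0

def Ext (ℓ : U → U → Set (At P Q)) (L : U → Set (At P Q)) : Option U → Option U → Set (At P Q)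
  | some x, some y => ℓ x y
  | some x, none => L x
  | none, some y => L y
  | none, none => {e}

theorem core [Big P] {ℓ : U → U → Set (At P Q)} (h : Inv ℓ) (u w : U) {X Y : Set (At P Q)}
    (hγ : ℓ u w ⊆ cmp X Y) (hX : X ⊆ cmp (ℓ u w) Y) (hY : Y ⊆ cmp (ℓ u w) X)
    {x₀ y₀ : At P Q} (x1 : x₀ ∈ X) (x2 : x₀ ≠ e) (y1 : y₀ ∈ Y) (y2 : y₀ ≠ e)
    (hB : e ∈ Y → e ∈ X ∧ e ∈ ℓ u w ∧ ∀ c ∈ X, c ∈ Y → c = e)
    (hM : e ∈ X → e ∉ Y → ∃ i, X = {e, a i} ∧ Y = {a i}) :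
    ∃ L, Inv (Ext ℓ L) ∧ L u = X ∧ L w = Y := by
  obtain ⟨N, G⟩ := h
  obtain ⟨Mx, hMx⟩ : ∃ Mx : U → Set (At P Q), ∀ s, Mx s = cmp (ℓ s u) X ∩ cmp (ℓ s w) Y :=
    ⟨_, fun _ => rfl⟩
  have Mu : Mx u = X := by rw [hMx, N.refl, cmp_e, inter_eq_left.2 hX]
  have Mw : Mx w = Y := by rw [hMx, N.refl, cmp_e, N.sym, inter_eq_right.2 hY]
  have F0 : ∀ s, s ≠ u → s ≠ w → ∀ l, a l ≠ x₀ → a l ≠ y₀ → a l ∈ Mx s := fun s h1 h2 l l1 l2 => by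
    obtain ⟨d, d1, d2⟩ := N.div s u h1
    obtain ⟨d', d3, d4⟩ := N.div s w h2
    exact hMx s ▸ ⟨⟨d, d1, _, x1, cyc_a d2 x2 fun h => l1 h.2.symm⟩,
      ⟨d', d3, _, y1, cyc_a d4 y2 fun h => l2 h.2.symm⟩⟩
  obtain ⟨Ab, hAb⟩ : ∃ Ab : Set U → Prop,
      ∀ M, Ab M ↔ Good ℓ M ∧ ∀ c, c ≠ e → ¬∀ x ∈ M, c ∈ Mx x := ⟨_, fun _ => .rfl⟩
  have F1 : ∀ M, Ab M → u ∈ M ∧ (w ∈ M ∧ e ∈ Y ∨
      ∃ i, X = {e, a i} ∧ Y = {a i} ∧ ∃ x ∈ M, ℓ w x = {a i}) := fun M hM' => by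
    obtain ⟨g, n⟩ := (hAb M).1 hM'
    simp only [hMx] at n
    by_cases hu : u ∈ M <;> by_cases hw : w ∈ M
    · obtain ⟨c, c1, c2⟩ := mem_e.1 (hγ (g.1 u hu w hw))
      refine ⟨hu, .inl ⟨hw, by_contra fun h => n c (fun e => h (e ▸ c2)) fun x hx => ?_⟩⟩
      exact ⟨mem_l (g.1 x hx u hu) c1, mem_l (g.1 x hx w hw) c2⟩
    · obtain ⟨c, c1, c2⟩ := g.2 w hw
      have k : ∀ p ∈ X, p ≠ e → ∀ q ∈ Y, ¬cyc p q c := fun p p1 p2 q q1 h => n p p2 fun x hx =>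
        ⟨mem_l (g.1 x hx u hu) p1, c, N.sym w x ▸ c2 x hx, q, q1, cyc_comm (cyc_swap (cyc_comm h))⟩
      obtain ⟨p, p1, q, q1, h⟩ := hγ (N.sym w u ▸ c2 u hu)
      obtain rfl : p = e := by_contra fun e => k p p1 e q q1 h
      obtain rfl : q = c := by simpa using h
      obtain ⟨i, rfl, rfl⟩ : ∃ i, x₀ = a i ∧ q = a i :=
        by_contra fun e => k _ x1 x2 q q1 (cyc_self x2 c1 (not_exists.1 e))
      obtain ⟨j, rfl, rfl⟩ := hM p1 fun h => x2 ((hB h).2.2 _ x1 q1)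
      obtain rfl : i = j := by simpa using q1
      refine ⟨hu, .inr ⟨i, rfl, rfl, by_contra fun h => n _ c1 fun x hx =>
        ⟨mem_l (g.1 x hx u hu) x1, mem_ai (by_contra fun h' => h ⟨x, hx, ?_⟩)⟩⟩⟩
      exact eq_singleton_iff_unique_mem.2 ⟨c2 x hx, fun d hd =>
        by_contra fun e => h' ⟨d, N.sym w x ▸ hd, e⟩⟩
    · obtain ⟨c, c1, c2⟩ := g.2 u hu
      have k : ∀ p ∈ X, ∀ q ∈ Y, q ≠ e → ¬cyc p q c := fun p p1 q q1 q2 h => n q q2 fun x hx =>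
        ⟨⟨c, N.sym u x ▸ c2 x hx, p, p1, cyc_comm (cyc_swap h)⟩, mem_l (g.1 x hx w hw) q1⟩
      obtain ⟨p, p1, q, q1, h⟩ := hγ (c2 w hw)
      obtain rfl : q = e := by_contra fun e => k p p1 q q1 e h
      obtain rfl : p = c := by simpa using h
      refine (k p p1 _ y1 y2 (cyc_comm (cyc_self y2 c1 fun i h => c1 ?_))).elim
      exact (hB q1).2.2 _ p1 (h.2.trans h.1.symm ▸ y1)
    · obtain ⟨l, l1, l2, -⟩ := avoid x₀ y₀ x₀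
      exact (n (a l) (by simp) fun x hx => hMx x ▸
        F0 x (fun e => hu (e ▸ hx)) (fun e => hw (e ▸ hx)) l l1 l2).elim
  have F2 : ∀ M, Ab M → ∀ s ∈ M, e ∈ Mx s := fun M hM' s hs => by
    have g := ((hAb M).1 hM').1
    rw [hMx]
    obtain ⟨hu, ⟨hw, h⟩ | ⟨i, rfl, rfl, x, hx, h⟩⟩ := F1 M hM'
    · exact ⟨mem_l (g.1 s hs u hu) (hB h).1, mem_l (g.1 s hs w hw) h⟩
    · obtain ⟨c, -, c2⟩ := g.2 w fun hw => by simpa [h] using g.1 w hw x hx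
      exact ⟨mem_l (g.1 s hs u hu) (by simp), mem_e.2 ⟨c, N.sym w s ▸ c2 s hs, h ▸ c2 x hx⟩⟩
  have F3 : ∀ M, Ab M → ∀ p c, (∀ x ∈ M, c ∈ ℓ p x) → c ∈ Mx p := fun M hM' p c hc => by
    rw [hMx]
    obtain ⟨hu, ⟨hw, h⟩ | ⟨i, rfl, rfl, x, hx, h⟩⟩ := F1 M hM'
    · exact ⟨mem_r (hc u hu) (hB h).1, mem_r (hc w hw) h⟩
    · exact ⟨mem_r (hc u hu) (by simp), h ▸ N.tri p w x (hc x hx)⟩
  obtain ⟨L, hL⟩ : ∃ L : U → Set (At P Q), ∀ s c, c ∈ L s ↔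
      c ∈ Mx s ∧ (c = e → s = u ∨ s = w ∨ ∃ M, Ab M ∧ s ∈ M) :=
    ⟨fun s => {c | _}, fun _ _ => .rfl⟩
  have Lu : L u = X := by ext c; simp [hL, Mu]
  have Lw : L w = Y := by ext c; simp [hL, Mw]
  have L1 : ∀ {s c}, c ≠ e → c ∈ Mx s → c ∈ L s := fun h1 h2 => (hL _ _).2 ⟨h2, fun h => (h1 h).elim⟩
  have L2 : ∀ r, r ≠ u → r ≠ w → ∀ d c : At P Q, d ≠ e → c ≠ e → ∃ y ∈ L r, cyc d y c :=
    fun r h1 h2 d c hd hc => by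
      obtain ⟨l, l1, l2, l3⟩ := avoid x₀ y₀ c
      exact ⟨_, L1 (by simp) (F0 r h1 h2 l l1 l2), cyc_swap (cyc_a hd hc fun h => l3 h.2.symm)⟩
  have L3 : ∀ s, ∃ d ∈ L s, d ≠ e := fun s => by
    by_cases h1 : s = u
    · exact ⟨x₀, by rwa [h1, Lu], x2⟩
    by_cases h2 : s = w
    · exact ⟨y₀, by rwa [h2, Lw], y2⟩
    obtain ⟨l, l1, l2, -⟩ := avoid x₀ y₀ x₀
    exact ⟨_, L1 (by simp) (F0 s h1 h2 l l1 l2), by simp⟩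
  have T1 : ∀ s r, s ≠ r → ∀ c ∈ L s, c ≠ e → c ∈ cmp (ℓ s r) (L r) := fun s r h c c1 c2 => by
    have := ((hL _ _).1 c1).1
    rw [hMx] at this
    by_cases h1 : r = u
    · rw [h1, Lu]; exact this.1
    by_cases h2 : r = w
    · rw [h2, Lw]; exact this.2
    obtain ⟨d, d1, d2⟩ := N.div s r h
    exact ⟨d, d1, L2 r h1 h2 d c d2 c2⟩
  have T2 : ∀ s r, s ≠ r → ∀ c ∈ ℓ s r, c ≠ e → c ∈ cmp (L s) (L r) := fun s r h c c1 c2 => by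
    by_cases h1 : r ≠ u ∧ r ≠ w
    · obtain ⟨d, d1, d2⟩ := L3 s
      exact ⟨d, d1, L2 r h1.1 h1.2 d c d2 c2⟩
    by_cases h2 : s ≠ u ∧ s ≠ w
    · obtain ⟨d, d1, d2⟩ := L3 r
      exact cmp_comm _ _ ▸ ⟨d, d1, L2 s h2.1 h2.2 d c d2 c2⟩
    obtain ⟨rfl, rfl⟩ | ⟨rfl, rfl⟩ : s = u ∧ r = w ∨ s = w ∧ r = u := by grind
    · rw [Lu, Lw]; exact hγ c1
    · rw [Lu, Lw, cmp_comm]; exact hγ (N.sym _ _ ▸ c1)
  have G1 : ∀ M, Good ℓ M → Good (Ext ℓ L) {o | o.elim (Ab M) (· ∈ M)} := fun M g => by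
    refine ⟨?_, ?_⟩
    · rintro (_ | x) hx (_ | y) hy
      exacts [rfl, (hL _ _).2 ⟨F2 M hx y hy, fun _ => .inr (.inr ⟨M, hx, hy⟩)⟩,
        (hL _ _).2 ⟨F2 M hy x hx, fun _ => .inr (.inr ⟨M, hy, hx⟩)⟩, g.1 x hx y hy]
    · rintro (_ | p) hp
      · obtain ⟨c, c1, c2⟩ : ∃ c, c ≠ e ∧ ∀ x ∈ M, c ∈ Mx x :=
          by_contra fun h => hp ((hAb M).2 ⟨g, fun c c1 c2 => h ⟨c, c1, c2⟩⟩)
        refine ⟨c, c1, ?_⟩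
        rintro (_ | x) hx
        exacts [(hp hx).elim, L1 c1 (c2 x hx)]
      · obtain ⟨c, c1, c2⟩ := g.2 p hp
        refine ⟨c, c1, ?_⟩
        rintro (_ | x) hx
        exacts [L1 c1 (F3 M hx p c c2), c2 x hx]
  have G2 : e ∈ Y → ∃ M, Ab M ∧ u ∈ M ∧ w ∈ M := fun h => by
    obtain ⟨M, g, hu, hw⟩ := G u w (hB h).2.1
    exact ⟨M, (hAb M).2 ⟨g, fun c c1 c2 => c1 ((hB h).2.2 c (Mu ▸ c2 u hu) (Mw ▸ c2 w hw))⟩, hu, hw⟩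
  have G3 : ∀ s, e ∈ L s → ∃ M, Good (Ext ℓ L) M ∧ none ∈ M ∧ some s ∈ M := fun s hs => by
    by_cases h : ∃ M, Ab M ∧ s ∈ M
    · obtain ⟨M, h1, h2⟩ := h
      exact ⟨_, G1 M ((hAb M).1 h1).1, h1, h2⟩
    have hw : e ∉ Y := fun h' => by
      obtain ⟨M, h1, h2, h3⟩ := G2 h'
      rcases ((hL _ _).1 hs).2 rfl with rfl | rfl | h''
      exacts [h ⟨M, h1, h2⟩, h ⟨M, h1, h3⟩, h h'']
    obtain rfl : s = u := by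
      rcases ((hL _ _).1 hs).2 rfl with h' | rfl | h''
      exacts [h', (hw (Lw ▸ hs)).elim, (h h'').elim]
    obtain ⟨i, rfl, rfl⟩ := hM (Lu ▸ hs) hw
    refine ⟨{none, some s}, ⟨?_, ?_⟩, by simp, by simp⟩
    · rintro _ (rfl | rfl) _ (rfl | rfl)
      exacts [rfl, hs, hs, (N.refl s).ge rfl]
    rintro (_ | p) hp
    · simp at hp
    have ps : p ≠ s := by simpa using hp
    suffices ∃ c, c ≠ e ∧ c ∈ ℓ p s ∧ c ∈ cmp (ℓ p w) {a i} by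
      obtain ⟨c, c1, c2, c3⟩ := this
      refine ⟨c, c1, ?_⟩
      rintro _ (rfl | rfl)
      exacts [L1 c1 (hMx p ▸ ⟨mem_r c2 (by simp), c3⟩), c2]
    by_contra! n
    have ai : a i ∈ ℓ s w := by simpa [mem_e] using hX (show e ∈ _ by simp)
    have pw : p ≠ w := by
      rintro rfl
      exact n _ (by simp) (N.sym _ _ ▸ ai) (mem_l ((N.refl p).ge rfl) rfl)
    obtain ⟨d', d3, d4⟩ := N.div p w pw
    have k : ∀ d ∈ ℓ p s, d ≠ e → d = a i := fun d d1 d2 => by_contra fun h' =>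
      n d d2 d1 ⟨d', d3, _, rfl, cyc_swap (cyc_a d4 d2 fun h => h' h.2)⟩
    obtain ⟨d, d1, d2⟩ := N.div p s ps
    obtain rfl := k d d1 d2
    obtain ⟨x, hx, y, hy, hc⟩ := N.tri s p w ai
    rw [N.sym] at hx
    obtain rfl : x = e := by_contra fun h' =>
      n _ d2 d1 ⟨y, hy, _, rfl, cyc_comm (k x hx h' ▸ hc)⟩
    obtain ⟨M, g, h1, h2⟩ := G p s hx
    refine h ⟨M, (hAb M).2 ⟨g, fun c c1 c2 => ?_⟩, h2⟩
    obtain rfl : c = a i := by simpa [Mu, c1] using c2 s h2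
    exact n _ d2 d1 (hMx p ▸ c2 p h1).2
  refine ⟨L, mkInv ?_ ?_ ?_ ?_ ?_, Lu, Lw⟩
  · rintro (_ | x) (_ | y)
    exacts [rfl, rfl, rfl, N.sym x y]
  · rintro (_ | x)
    exacts [rfl, N.refl x]
  · rintro (_ | x) (_ | y) h
    exacts [(h rfl).elim, L3 y, L3 x, N.div x y (by simpa using h)]
  · rintro (_ | x) (_ | y) (_ | z) h1 h2 h3 c c1 c2 <;> try contradiction
    · change c ∈ cmp (L y) (ℓ y z)
      rw [cmp_comm, N.sym]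
      exact T1 z y (by simpa [eq_comm] using h2) c c1 c2
    · exact T2 x z (by simpa using h3) c c1 c2
    · exact T1 x y (by simpa using h1) c c1 c2
    · exact N.tri x y z c1
  · rintro (_ | x) (_ | y) h
    · refine ⟨{none}, ⟨by rintro _ rfl _ rfl; rfl, ?_⟩, rfl, rfl⟩
      rintro (_ | p) hp
      · simp at hp
      · obtain ⟨d, d1, d2⟩ := L3 p
        exact ⟨d, d2, by rintro _ rfl; exact d1⟩
    · exact G3 y h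
    · exact (G3 x h).imp fun M h => ⟨h.1, h.2.2, h.2.1⟩
    · obtain ⟨M, g, h1, h2⟩ := G x y h
      exact ⟨_, G1 M g, h1, h2⟩

theorem ext [Big P] {ℓ : U → U → Set (At P Q)} (h : Inv ℓ) (u w : U) (X Y : Set (At P Q)) :
    ∃ L, Inv (Ext ℓ L) ∧ (ℓ u w ⊆ cmp X Y →
      ∃ v, Ext ℓ L (some u) v ⊆ X ∧ Ext ℓ L v (some w) ⊆ Y) := by
  have one : ∀ c : At P Q, c ≠ e → ∃ L, Inv (Ext ℓ L) ∧ L u = {c} := fun c hc =>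
    (core h u u (X := {c}) (Y := {c}) (by simp [h.1.refl, mem_e]) (by simp [h.1.refl, cmp_e])
      (by simp [h.1.refl, cmp_e]) rfl hc rfl hc (by simp [hc.symm]) (by simp [hc.symm])).imp
      fun _ h => ⟨h.1, h.2.1⟩
  by_cases h0 : ℓ u w ⊆ cmp X Y → ∃ v, ℓ u v ⊆ X ∧ ℓ v w ⊆ Y
  · obtain ⟨l, -⟩ := avoid (P := P) (Q := Q) e e e
    obtain ⟨L, hL, -⟩ := one (a l) (by simp)
    exact ⟨L, hL, fun h => (h0 h).elim fun v hv => ⟨some v, hv⟩⟩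
  push Not at h0
  obtain ⟨hγ, nt⟩ := h0
  suffices ∃ L, Inv (Ext ℓ L) ∧ L u ⊆ X ∧ L w ⊆ Y from
    this.imp fun L h => ⟨h.1, fun _ => ⟨none, h.2⟩⟩
  have t1 : e ∈ X → ¬ℓ u w ⊆ Y := fun h' => nt u (by simpa [h.1.refl])
  have t2 : e ∈ Y → ¬ℓ u w ⊆ X := fun h' h'' => nt w h'' (by simpa [h.1.refl])
  clear nt
  by_cases uw : u = w
  · subst uw
    obtain ⟨c, c1, c2⟩ := mem_e.1 (hγ ((h.1.refl u).ge rfl))
    obtain ⟨L, hL, e⟩ := one c fun e => t1 (e ▸ c1) (by simpa [h.1.refl, ← e])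
    exact ⟨L, hL, by simpa [e], by simpa [e]⟩
  obtain ⟨g, g1, -⟩ := h.1.div u w uw
  have dv : ∀ {X' Y' Y : Set (At P Q)}, ℓ u w ⊆ cmp X' Y' → Y' ⊆ Y → (e ∈ X' → ¬ℓ u w ⊆ Y) →
      ∃ x ∈ X', x ≠ e := fun h1 h2 h3 => by
    by_contra! n
    obtain ⟨x, x1, -⟩ := h1 g1
    refine h3 (n x x1 ▸ x1) fun c hc => ?_
    obtain ⟨x, x1, y, y1, h⟩ := h1 hc
    rw [n x x1, cyc_e1] at h
    exact h ▸ h2 y1
  have trim : ∀ X' ⊆ X, ∀ Y' ⊆ Y, ℓ u w ⊆ cmp X' Y' →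
      (e ∈ X' ∨ e ∈ Y' → e ∈ X' ∧ e ∈ Y' ∧ e ∈ ℓ u w ∧ ∀ c ∈ X', c ∈ Y' → c = e) →
      ∃ L, Inv (Ext ℓ L) ∧ L u ⊆ X ∧ L w ⊆ Y := fun X' hX Y' hY H H' => by
    have k : ∀ {x y z}, x ∈ X' → y ∈ Y' → z ∈ ℓ u w → cyc x y z → x ∈ X' ∩ cmp (ℓ u w) Y' ∧
        y ∈ Y' ∩ cmp (ℓ u w) X' := fun hx hy hz hc =>
      ⟨⟨hx, _, hz, _, hy, cyc_comm (cyc_swap (cyc_comm hc))⟩, hy, _, hz, _, hx,
        cyc_comm (cyc_swap hc)⟩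
    have H1 : ℓ u w ⊆ cmp (X' ∩ cmp (ℓ u w) Y') (Y' ∩ cmp (ℓ u w) X') := fun z hz =>
      let ⟨x, hx, y, hy, hc⟩ := H hz
      ⟨x, (k hx hy hz hc).1, y, (k hx hy hz hc).2, hc⟩
    obtain ⟨x, x1, x2⟩ := dv H1 (inter_subset_left.trans hY) fun h => t1 (hX h.1)
    obtain ⟨y, y1, y2⟩ := dv (cmp_comm _ _ ▸ H1) (inter_subset_left.trans hX) fun h => t2 (hY h.1)
    obtain ⟨L, h1, h2, h3⟩ := core h u w H1
      (fun x ⟨hx, z, hz, y, hy, hc⟩ =>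
        ⟨z, hz, y, (k hx hy hz (cyc_comm (cyc_swap (cyc_comm hc)))).2, hc⟩)
      (fun y ⟨hy, z, hz, x, hx, hc⟩ => ⟨z, hz, x, (k hx hy hz (cyc_swap (cyc_comm hc))).1, hc⟩)
      x1 x2 y1 y2 (fun h => let ⟨f, b, c, d⟩ := H' (.inr h.1)
        ⟨⟨f, mem_l c b⟩, c, fun c c1 c2 => d c c1.1 c2.1⟩)
      fun h h' => let ⟨f, b, c, _⟩ := H' (.inl h.1); (h' ⟨b, mem_l c f⟩).elim
    exact ⟨L, h1, h2 ▸ inter_subset_left.trans hX, h3 ▸ inter_subset_left.trans hY⟩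
  by_cases hN : ℓ u w ⊆ cmp (X \ {e}) (Y \ {e})
  · exact trim _ diff_subset _ diff_subset hN (by simp)
  obtain ⟨z, z1, z2⟩ := not_subset.1 hN
  by_cases z0 : z = e
  · subst z0
    have k : ∀ c ∈ X, c ∈ Y → c = e := fun c c1 c2 =>
      by_contra fun h => z2 (mem_e.2 ⟨c, ⟨c1, h⟩, c2, h⟩)
    obtain ⟨c, c1, c2⟩ := mem_e.1 (hγ z1)
    obtain rfl := k c c1 c2
    exact trim _ Subset.rfl _ Subset.rfl hγ fun _ => ⟨c1, c2, z1, k⟩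
  have mono : ∀ (u w : U) (X Y : Set (At P Q)), z ∈ ℓ u w → e ∈ X → z ∈ Y → ¬ℓ u w ⊆ Y →
      (∃ x ∈ X, x ≠ e) → z ∉ cmp (X \ {e}) (Y \ {e}) → ∃ L, Inv (Ext ℓ L) ∧ L u ⊆ X ∧ L w ⊆ Y := by
    rintro u w X Y z1 hX hY n ⟨x, x1, x2⟩ z2
    obtain ⟨i, rfl, rfl⟩ : ∃ i, x = a i ∧ z = a i := by_contra fun h =>
      z2 ⟨x, ⟨x1, x2⟩, z, ⟨hY, z0⟩, cyc_self x2 z0 (not_exists.1 h)⟩
    obtain ⟨L, h1, h2, h3⟩ := core h u w (X := {e, a i}) (Y := {a i}) (fun c _ => by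
        by_cases c1 : c = e
        · simp [c1, mem_e]
        by_cases c2 : c = a i
        · exact mem_l (by simp) c2
        · exact ⟨a i, by simp, _, rfl, cyc_swap (cyc_a x2 c1 fun h => c2 h.2)⟩)
      (by
        rintro _ (rfl | rfl)
        · exact mem_e.2 ⟨_, z1, rfl⟩
        · exact mem_ai (by_contra fun h => n fun d hd => by_contra fun h' =>
            h ⟨d, hd, fun e => h' (e ▸ hY)⟩))
      (by rintro _ rfl; exact mem_r z1 (by simp)) (x₀ := a i) (by simp) x2 rfl x2 (by simp)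
      fun _ _ => ⟨i, rfl, rfl⟩
    exact ⟨L, h1, by simp [h2, insert_subset_iff, *], by simpa [h3]⟩
  obtain ⟨x, x1, y, y1, hc⟩ := hγ z1
  by_cases hx : x = e
  · rw [hx, cyc_e1] at hc
    exact mono u w X Y z1 (hx ▸ x1) (hc ▸ y1) (t1 (hx ▸ x1)) (dv hγ Subset.rfl t1) z2
  obtain rfl : y = e := by_contra fun hy => z2 ⟨x, ⟨x1, hx⟩, y, ⟨y1, hy⟩, hc⟩
  rw [cyc_e2] at hc
  exact (mono w u Y X (h.1.sym _ _ ▸ z1) y1 (hc ▸ x1) (h.1.sym _ _ ▸ t2 y1)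
    (dv (cmp_comm _ _ ▸ hγ) Subset.rfl t2) (cmp_comm _ _ ▸ z2)).imp fun _ h => ⟨h.1, h.2.2, h.2.1⟩

end Pool.Agent.Lib.MP_f51cdd_lc
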