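import Pool.Agent.Lib.MP_f51cdd_lc.H26Net

/-! Step-by-step construction of (weak) representations, and non-representability. -/

namespace Pool.Agent.Lib.MP_f51cdd_lc

open At Set

variable {P Q : Type}

def T : ℕ → Type
  | 0 => Unit
  | n + 1 => Option (T n)

instance finT : ∀ n, Finite (T n)
  | 0 => inferInstanceAs (Finite Unit)
  | n + 1 => have := finT n; inferInstanceAs (Finite (Option (T n)))

def nd : ∀ n, ℕ → T n
  | 0, _ => ()
  | n + 1, i => if i = n + 1 then none else some (nd n i)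

theorem nd_lt {n i : ℕ} (h : i ≤ n) : nd (n + 1) i = some (nd n i) := if_neg (by omega)

theorem nd_surj : ∀ n (x : T n), ∃ i ≤ n, nd n i = x
  | 0, _ => ⟨0, le_rfl, rfl⟩
  | _ + 1, none => ⟨_, le_rfl, if_pos rfl⟩
  | n + 1, some x => let ⟨i, h, h'⟩ := nd_surj n x; ⟨i, by omega, by rw [nd_lt h, h']⟩

theorem nd_inj : ∀ n i j, i ≤ n → j ≤ n → nd n i = nd n j → i = j
  | 0, _, _, _, _, _ => by omega
  | n + 1, i, j, hi, hj, h => by
    have k : nd (n + 1) (n + 1) = none := if_pos rfl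
    obtain rfl | hi := hi.eq_or_lt <;> obtain rfl | hj := hj.eq_or_lt
    · rfl
    · rw [k, nd_lt (by omega)] at h; cases h
    · rw [k, nd_lt (by omega)] at h; cases h
    · rw [nd_lt (by omega), nd_lt (by omega)] at h
      exact nd_inj n i j (by omega) (by omega) (Option.some.inj h)

theorem limit {K : Type} [Countable K] [Nonempty K] (X Y : K → Set (At P Q))
    (I : ∀ {U : Type}, (U → U → Set (At P Q)) → Prop) (R : Set (At P Q) → Prop)
    (hI : ∀ {U : Type} (ℓ : U → U → Set (At P Q)), I ℓ → Net ℓ ∧ ∀ x y, R (ℓ x y))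
    (h0 : I fun _ _ : Unit => {e})
    (step : ∀ (U : Type) [Finite U] (ℓ : U → U → Set (At P Q)), I ℓ → ∀ u w k, ∃ L,
      I (Ext ℓ L) ∧ (ℓ u w ⊆ cmp (X k) (Y k) →
        ∃ v, Ext ℓ L (some u) v ⊆ X k ∧ Ext ℓ L v (some w) ⊆ Y k)) :
    ∃ ℓ : ℕ → ℕ → Set (At P Q), Net ℓ ∧ (∀ i j, R (ℓ i j)) ∧
      ∀ i j k, ℓ i j ⊆ cmp (X k) (Y k) → ∃ v, ℓ i v ⊆ X k ∧ ℓ v j ⊆ Y k := by
  obtain ⟨g, hg⟩ := exists_surjective_nat (ℕ × ℕ × K)
  choose F F1 F2 using step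
  let S : ∀ n, {ℓ : T n → T n → Set (At P Q) // I ℓ} := fun n => n.rec ⟨_, h0⟩ fun n ℓ =>
    ⟨_, F1 (T n) ℓ.1 ℓ.2 (nd n (g n.unpair.1).1) (nd n (g n.unpair.1).2.1) (g n.unpair.1).2.2⟩
  have hS : ∀ i j n, max i j ≤ n →
      (S (max i j)).1 (nd _ i) (nd _ j) = (S n).1 (nd n i) (nd n j) := fun i j n h => by
    induction n, h using Nat.le_induction with
    | base => rfl
    | succ n h ih => rw [ih, nd_lt (le_of_max_le_left h), nd_lt (le_of_max_le_right h)]; rfl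
  have N := fun n => (hI _ (S n).2).1
  refine ⟨fun i j => (S (max i j)).1 (nd _ i) (nd _ j), ⟨fun i j => ?_, fun i => (N _).refl _,
    fun i j h => (N _).div _ _ fun e => h (nd_inj _ _ _ (by omega) (by omega) e), fun i j k => ?_⟩,
    fun i j => (hI _ (S _).2).2 _ _, fun i j k h => ?_⟩
  · rw [hS j i (max i j) (by omega), (N _).sym]
  · rw [hS i k (i + j + k) (by omega), hS i j (i + j + k) (by omega), hS j k (i + j + k) (by omega)]
    exact (N _).tri _ _ _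
  · obtain ⟨m, hm⟩ := hg (i, j, k)
    have h1 := Nat.right_le_pair m (max i j)
    have h2 := F2 _ _ (S (m.pair (max i j))).2 (nd _ (g (m.pair (max i j)).unpair.1).1)
      (nd _ (g (m.pair (max i j)).unpair.1).2.1) (g (m.pair (max i j)).unpair.1).2.2
    change _ → ∃ v, (S (_ + 1)).1 _ v ⊆ _ ∧ (S (_ + 1)).1 v _ ⊆ _ at h2
    simp only [Nat.unpair_pair, hm] at h2
    obtain ⟨v, hv⟩ := h2 (hS i j _ h1 ▸ h)
    obtain ⟨v, h3, rfl⟩ := nd_surj (_ + 1) v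
    rw [← nd_lt (by omega), ← nd_lt (by omega), ← hS i v _ (by omega), ← hS v j _ (by omega)] at hv
    exact ⟨v, hv⟩

theorem weak [Big P] {ℓ : ℕ → ℕ → Set (At P Q)} (N : Net ℓ)
    (sat : ∀ i j X Y, ℓ i j ⊆ cmp X Y → ∃ v, ℓ i v ⊆ X ∧ ℓ v j ⊆ Y) :
    let h : Set (At P Q) → SetRel ℕ ℕ := fun X => {p | ℓ p.1 p.2 ⊆ X}
    Function.Injective h ∧ h ⊥ = ∅ ∧ (∀ X Y, h (X ⊓ Y) = h X ∩ h Y) ∧
      (∀ X Y, h (cmp X Y) = (h X).comp (h Y)) ∧ (∀ X, h X = (h X).inv) ∧ h {e} = SetRel.id := by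
  have ne : ∀ i j, (ℓ i j).Nonempty := fun i j => by
    by_cases h : i = j
    · simp [h, N.refl]
    · exact (N.div i j h).imp fun _ h => h.1
  have le : ∀ X Y : Set (At P Q), (∀ i j, ℓ i j ⊆ X → ℓ i j ⊆ Y) → X ⊆ Y := fun X Y h c hc => by
    obtain ⟨v, hv, -⟩ := sat 0 0 {c} {c} (by simp [N.refl, mem_e])
    obtain ⟨d, hd⟩ := ne 0 v
    exact (hv hd : d = c) ▸ h 0 v (hv.trans (by simpa)) hd
  refine ⟨fun X Y h => (le X Y fun i j => (Set.ext_iff.1 h (i, j)).1).antisymm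
    (le Y X fun i j => (Set.ext_iff.1 h (i, j)).2), ?_, fun X Y => ?_, fun X Y => ?_, fun X => ?_, ?_⟩
    <;> ext ⟨i, j⟩
  · simpa using (ne i j).ne_empty
  · simp
  · exact ⟨sat i j X Y, fun ⟨v, h1, h2⟩ => (N.tri i v j).trans (cmp_mono h1 h2)⟩
  · simp [N.sym i j]
  · refine ⟨fun h => by_contra fun h' => ?_, fun h => (h : i = j) ▸ (N.refl i).le⟩
    obtain ⟨d, d1, d2⟩ := N.div i j h'
    exact d2 (h d1)

theorem inv0 : Inv fun _ _ : Unit => ({e} : Set (At P Q)) :=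
  mkInv (fun _ _ => rfl) (fun _ => rfl) (fun _ _ h => (h rfl).elim) (fun _ _ _ h => (h rfl).elim)
    fun _ _ _ => ⟨univ, ⟨fun _ _ _ _ => rfl, fun _ h => (h trivial).elim⟩, trivial, trivial⟩

def code : At P Q → Option (P ⊕ Q)
  | e => none
  | a i => some (.inl i)
  | t j => some (.inr j)

theorem code_inj : Function.Injective (code : At P Q → _) := by
  rintro (_ | _ | _) (_ | _ | _) <;> simp [code]

instance : Nonempty (At P Q) := ⟨e⟩
instance [Finite P] [Finite Q] : Finite (At P Q) := .of_injective _ code_inj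
instance [Countable P] [Countable Q] : Countable (At P Q) := code_inj.countable

theorem isWRRA [Big P] [Finite P] [Finite Q] : IsWRRA (Set (At P Q)) := by
  obtain ⟨ℓ, N, -, sat⟩ := limit (P := P) (Q := Q) (K := Set (At P Q) × Set (At P Q)) Prod.fst
    Prod.snd Inv (fun _ => True) (fun _ h => ⟨h.1, fun _ _ => trivial⟩) inv0
    fun U _ ℓ h u w k => ext h u w k.1 k.2
  exact ⟨ℕ, _, weak N fun i j X Y => sat i j (X, Y)⟩

instance : Big ℕ := ⟨fun i j k => ⟨i + j + k + 1, by omega⟩, ⟨0⟩⟩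

theorem fresh {U : Type} [Finite U] (f : U → U → At ℕ Q) (x y : At ℕ Q) :
    ∃ k, (∀ r s, f r s ≠ a k) ∧ x ≠ a k ∧ y ≠ a k := by
  obtain ⟨_, ⟨k, rfl⟩, h⟩ := (infinite_range_of_injective (f := (a : ℕ → At ℕ Q))
    fun _ _ => At.a.inj).exists_notMem_finite
    (((finite_range fun p : U × U => f p.1 p.2).insert x).insert y)
  simp only [mem_insert_iff, mem_range, not_or, not_exists, Prod.forall] at h
  exact ⟨k, h.2.2, Ne.symm h.2.1, Ne.symm h.1⟩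

theorem extA {U : Type} [Finite U] {f : U → U → At ℕ Q} (N : Net fun r s => {f r s}) (u w : U)
    {x y : At ℕ Q} (hx : x ≠ e) (hy : y ≠ e) (h : cyc x y (f u w)) :
    ∃ L : U → At ℕ Q, Net (Ext (fun r s => {f r s}) fun s => {L s}) ∧ L u = x ∧ L w = y := by
  classical
  obtain ⟨k, k1, k2, k3⟩ := fresh f x y
  have sy : ∀ r s, f r s = f s r := fun r s => by simpa using N.sym r s
  have re : ∀ r, f r r = e := fun r => by simpa using N.refl r
  have dv : ∀ r s, r ≠ s → f r s ≠ e := fun r s h => by simpa using N.div r s h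
  obtain ⟨L, Lu, Lw, L1⟩ : ∃ L : U → At ℕ Q, L u = x ∧ L w = y ∧ ∀ s, s ≠ u → s ≠ w → L s = a k :=
    ⟨fun s => if s = u then x else if s = w then y else a k, if_pos rfl, by
      by_cases e : w = u
      · simpa [e, re] using h
      · simp [e], fun s h1 h2 => by simp [h1, h2]⟩
  have L2 : ∀ s, L s ≠ e := fun s => by
    by_cases h1 : s = u
    · rwa [h1, Lu]
    by_cases h2 : s = w
    · rwa [h2, Lw]
    simp [L1 s h1 h2]
  have L3 : ∀ r s, cyc (f r s) (L s) (L r) := fun r s => by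
    by_cases h0 : r = s
    · simp [h0, re]
    by_cases h1 : r ≠ u ∧ r ≠ w
    · exact L1 r h1.1 h1.2 ▸ cyc_a (dv r s h0) (L2 s) fun h => k1 _ _ h.1
    by_cases h2 : s ≠ u ∧ s ≠ w
    · exact L1 s h2.1 h2.2 ▸ cyc_swap (cyc_a (dv r s h0) (L2 r) fun h => k1 _ _ h.1)
    obtain ⟨rfl, rfl⟩ | ⟨rfl, rfl⟩ : r = u ∧ s = w ∨ r = w ∧ s = u := by grind
    · rw [Lu, Lw]; exact cyc_comm (cyc_swap (cyc_comm h))
    · rw [Lu, Lw, sy]; exact cyc_comm (cyc_swap h)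
  refine ⟨L, ⟨?_, ?_, ?_, ?_⟩, Lu, Lw⟩
  · rintro (_ | r) (_ | s)
    exacts [rfl, rfl, rfl, N.sym r s]
  · rintro (_ | r)
    exacts [rfl, N.refl r]
  · rintro (_ | r) (_ | s) h
    exacts [(h rfl).elim, ⟨_, rfl, L2 s⟩, ⟨_, rfl, L2 r⟩, N.div r s (by simpa using h)]
  · rintro (_ | r) (_ | s) (_ | q) _ rfl
    exacts [mem_l rfl rfl, mem_l rfl rfl, mem_e.2 ⟨_, rfl, rfl⟩,
      ⟨_, rfl, _, rfl, cyc_comm (sy q s ▸ L3 q s)⟩, mem_r rfl rfl,
      ⟨_, rfl, _, rfl, cyc_comm (cyc_swap (cyc_comm (L3 r q)))⟩, ⟨_, rfl, _, rfl, L3 r s⟩,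
      N.tri r s q rfl]

theorem isRRA [Countable Q] : IsRRA (Set (At ℕ Q)) ∧ IsWRRA (Set (At ℕ Q)) := by
  obtain ⟨ℓ, N, R, sat⟩ := limit (P := ℕ) (Q := Q) (K := At ℕ Q × At ℕ Q) (fun k => {k.1})
    (fun k => {k.2}) (fun ℓ => Net ℓ ∧ ∀ x y, ∃ c, ℓ x y = {c}) (fun X => ∃ c, X = {c})
    (fun _ h => h) ⟨inv0.1, fun _ _ => ⟨_, rfl⟩⟩ fun U _ ℓ ⟨N, h⟩ u w ⟨x, y⟩ => by
      choose f hf using h
      obtain rfl : ℓ = fun r s => {f r s} := by ext1; ext1; exact hf _ _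
      have sg : ∀ L : U → At ℕ Q, ∀ r s, ∃ c, Ext (fun r s => {f r s}) (fun s => {L s}) r s = {c} := by
        rintro L (_ | r) (_ | s) <;> exact ⟨_, rfl⟩
      have re : ∀ r, f r r = e := fun r => by simpa using N.refl r
      by_cases h : x ≠ e ∧ y ≠ e ∧ cyc x y (f u w)
      · obtain ⟨L, h1, h2, h3⟩ := extA N u w h.1 h.2.1 h.2.2
        exact ⟨_, ⟨h1, sg L⟩, fun _ => ⟨none, by simp [Ext, h2], by simp [Ext, h3]⟩⟩
      obtain ⟨L, h1, -⟩ := extA N u u (x := a 0) (y := a 0) (by simp) (by simp) (by simp [re])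
      refine ⟨_, ⟨h1, sg L⟩, fun h' => ?_⟩
      have : cyc x y (f u w) := by simpa [cmp] using h'
      by_cases hx : x = e
      · exact ⟨some u, by simp [Ext, hx, re], by simp_all [Ext]⟩
      · exact ⟨some w, by simp_all [Ext], by simp_all [Ext]⟩
  obtain ⟨h1, h2, h3, h4, h5, h6⟩ := weak N fun i j X Y h => by
    obtain ⟨c, hc⟩ := R i j
    obtain ⟨x, x1, y, y1, h⟩ := h (hc.ge rfl)
    obtain ⟨v, v1, v2⟩ := sat i j (x, y) (hc ▸ singleton_subset_iff.2 ⟨x, rfl, y, rfl, h⟩)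
    exact ⟨v, v1.trans (by simpa), v2.trans (by simpa)⟩
  refine ⟨⟨ℕ, univ, _, ⟨by simp, by simp, by simp⟩, h1, h2, by simp, fun X Y => ?_, fun X => ?_,
    h4, h5, h6⟩, ℕ, _, h1, h2, h3, h4, h5, h6⟩ <;> ext ⟨i, j⟩ <;> obtain ⟨c, hc⟩ := R i j <;> simp [hc]

theorem ramsey (n : ℕ) : ∃ N, ∀ (V : Type) (c : V → V → P) (S : Finset P) (W : Finset V),
    S.card = n → N < W.card → (∀ x ∈ W, ∀ y ∈ W, x ≠ y → c x y ∈ S) →
    ∃ x y z, x ≠ y ∧ x ≠ z ∧ y ≠ z ∧ c x y = c y z ∧ c x y = c x z := by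
  classical
  induction n with
  | zero =>
    refine ⟨1, fun V c S W h1 h2 h3 => ?_⟩
    obtain ⟨x, hx, y, hy, h⟩ := Finset.one_lt_card.1 h2
    simpa [Finset.card_eq_zero.1 h1] using h3 x hx y hy h
  | succ n ih =>
    obtain ⟨N, hN⟩ := ih
    refine ⟨(n + 1) * N + 1, fun V c S W h1 h2 h3 => ?_⟩
    obtain ⟨x, hx⟩ := Finset.card_pos.1 (show 0 < W.card by omega)
    obtain ⟨s, hs, h⟩ := Finset.exists_lt_card_fiber_of_mul_lt_card_of_maps_to (s := W.erase x)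
      (t := S) (f := c x) (n := N) (fun y hy => h3 x hx y (Finset.mem_of_mem_erase hy)
        (Finset.ne_of_mem_erase hy).symm) (by rw [Finset.card_erase_of_mem hx, h1]; omega)
    by_contra! n'
    refine absurd (hN V c (S.erase s) _ (by rw [Finset.card_erase_of_mem hs, h1]; rfl) h
      fun y hy z hz e => ?_) (by push Not; exact n')
    simp only [Finset.mem_filter, Finset.mem_erase] at hy hz ⊢
    exact ⟨fun e' => n' x y z hy.1.1.symm hz.1.1.symm e (hy.2.trans e'.symm)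
      (hy.2.trans hz.2.symm), h3 y hy.1.2 z hz.1.2 e⟩

theorem not_isRRA [Big P] [Fintype P] : ∃ N, ¬IsRRA (Set (At P (Bool × Fin N))) := by
  obtain ⟨N, hN⟩ := ramsey (P := P) (Fintype.card P)
  refine ⟨N + 1, fun ⟨U, E, h, _, h1, h2, h3, h4, h5, h6, h7, _⟩ => ?_⟩
  replace h4 : ∀ X Y, h (X ∪ Y) = h X ∪ h Y := h4
  replace h6 : ∀ X Y x y, (x, y) ∈ h (cmp X Y) ↔ ∃ v, (x, v) ∈ h X ∧ (v, y) ∈ h Y :=
    fun X Y x y => Set.ext_iff.1 (h6 X Y) (x, y)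
  replace h7 : ∀ {X x y}, (x, y) ∈ h X → (y, x) ∈ h X := fun {X _ _} hp => (h7 X).ge hp
  have mono : ∀ {X Y}, X ⊆ Y → h X ⊆ h Y := fun {X Y} e => by
    rw [← union_eq_right.2 e, h4]; exact subset_union_left
  have meet : ∀ {X Y p}, p ∈ h X → p ∈ h Y → p ∈ h (X ∩ Y) := fun {X Y p} p1 p2 => by
    rw [← compl_compl (X ∩ Y), compl_inter, h5, h4, h5, h5]
    exact ⟨h3 ▸ mono (subset_univ _) p1, fun h => h.elim (fun h => h.2 p1) fun h => h.2 p2⟩
  have atom : ∀ {X p}, p ∈ h X → ∃ c ∈ X, p ∈ h {c} := fun {X p} => by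
    induction X, X.toFinite using Set.Finite.induction_on with
    | empty => exact fun hp => (h2.le hp).elim
    | insert _ _ ih =>
      exact fun hp => ((h4 {_} _).le hp).elim (fun h => ⟨_, by simp, h⟩)
        fun h => (ih h).imp fun _ h => ⟨.inr h.1, h.2⟩
  obtain ⟨o⟩ := Big.ne (P := P)
  obtain ⟨⟨u, w⟩, hp⟩ : (h {a o}).Nonempty := nonempty_iff_ne_empty.2 fun e =>
    (singleton_ne_empty _) (h1 (e.trans h2.symm))
  choose y y1 y2 using fun m : Fin (N + 1) => (h6 {t (false, m)} {t (true, m)} u w).1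
    (mono (singleton_subset_iff.2 (by exact ⟨_, rfl, _, rfl, trivial⟩)) hp)
  have : ∀ m m', ∃ i, m ≠ m' → (y m, y m') ∈ h {a i} := fun m m' => by
    obtain ⟨c, ⟨⟨_, rfl, _, rfl, c1⟩, _, rfl, _, rfl, c2⟩, hc⟩ := atom (meet
      ((h6 _ _ _ _).2 ⟨u, h7 (y1 m), y1 m'⟩) ((h6 _ _ _ _).2 ⟨w, y2 m, h7 (y2 m')⟩))
    rcases c with _ | i | j
    · exact ⟨o, fun e => (e (by simpa using c1)).elim⟩
    · exact ⟨i, fun _ => hc⟩
    · exact ⟨o, fun e => by grind [cyc]⟩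
  choose c hc using this
  obtain ⟨x, x', z, e1, e2, e3, e4, e5⟩ := hN _ c .univ .univ rfl (by simp) (by simp)
  obtain ⟨_, ⟨⟨_, rfl, _, rfl, k⟩, rfl⟩, -⟩ := atom (meet
    ((h6 _ _ _ _).2 ⟨_, hc x x' e1, hc x' z e3⟩) (hc x z e2))
  rw [← e4, ← e5] at k
  exact not_cyc_a _ k

end Pool.Agent.Lib.MP_f51cdd_lc
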